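import Pool.Agent.Helper95.LN.Stmts
import Pool.Agent.Helper47.PN.REPL

/-!
# LN, row VIR: lower bound of the virial of the field `∇ g`
-/

set_option autoImplicit false

namespace Pool.Agent.Helper82.LN

open MeasureTheory Filter Pool.Agent.Helper95.PW Pool.Agent.Helper95.LN

theorem vir_nr (y : R3) : nr y = ‖(WithLp.toLp 2 y : EuclideanSpace ℝ (Fin 3))‖ := by
  rw [EuclideanSpace.norm_eq]
  simp [nr, Fin.sum_univ_three, sq_abs]

theorem vir_tri (a b y : R3) : nr (a - b) ≤ nr (y - a) + nr (y - b) := by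
  rw [vir_nr, vir_nr, vir_nr]
  have h : (WithLp.toLp 2 (a - b) : EuclideanSpace ℝ (Fin 3)) =
      WithLp.toLp 2 (y - b) - WithLp.toLp 2 (y - a) := by
    ext i
    simp
  rw [h, add_comm]
  exact norm_sub_le _ _

theorem vir_nn (y : R3) : 0 ≤ nr y := Real.sqrt_nonneg _

theorem vir_neg (a b : R3) : nr (a - b) = nr (b - a) := by
  rw [vir_nr, vir_nr, ← norm_neg]
  congr 1
  ext i
  simp

theorem vir_sq (y : R3) : nr y ^ 2 = ∑ i, y i ^ 2 := by
  unfold nr
  rw [Real.sq_sqrt (by positivity), Fin.sum_univ_three]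

theorem vir_abs (y : R3) (i : Fin 3) : |y i| ≤ nr y := by
  apply Real.abs_le_sqrt
  fin_cases i
  · show y 0 ^ 2 ≤ _
    nlinarith [sq_nonneg (y 1), sq_nonneg (y 2)]
  · show y 1 ^ 2 ≤ _
    nlinarith [sq_nonneg (y 0), sq_nonneg (y 2)]
  · show y 2 ^ 2 ≤ _
    nlinarith [sq_nonneg (y 0), sq_nonneg (y 1)]

/-- indicator that electron `k` is near the nucleus `i` -/
noncomputable def ci {n M : ℕ} (X : Fin M → R3) (r : ℝ) (x : Cf n) (i : Fin M) (k : Fin n) : ℝ :=
  if nr (x k - X i) < r then 1 else 0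

theorem ci_nn {n M : ℕ} (X : Fin M → R3) (r : ℝ) (x : Cf n) (i : Fin M) (k : Fin n) :
    0 ≤ ci X r x i k := by
  unfold ci
  split_ifs <;> norm_num

theorem ci_sq {n M : ℕ} (X : Fin M → R3) (r : ℝ) (x : Cf n) (i : Fin M) (k : Fin n) :
    ci X r x i k * ci X r x i k = ci X r x i k := by
  unfold ci
  split_ifs <;> norm_num

theorem ci_dis {n M : ℕ} (X : Fin M → R3) (d : ℝ) (hd : 0 < d) (hS : Sep X d) (x : Cf n)
    (i j : Fin M) (hij : i ≠ j) (k : Fin n) :
    ci X (3 / 2 * d) x i k * ci X (3 / 2 * d) x j k = 0 := by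
  unfold ci
  by_cases h1 : nr (x k - X i) < 3 / 2 * d
  · by_cases h2 : nr (x k - X j) < 3 / 2 * d
    · have h3 := hS i j hij
      have h4 := vir_tri (X i) (X j) (x k)
      linarith
    · rw [if_neg h2, mul_zero]
  · rw [if_neg h1, zero_mul]

theorem ci_le1 {n M : ℕ} (X : Fin M → R3) (d : ℝ) (hd : 0 < d) (hS : Sep X d) (x : Cf n)
    (k l : Fin n) : ∑ i, ci X (3 / 2 * d) x i k * ci X (3 / 2 * d) x i l ≤ 1 := by
  by_cases h : ∃ i0, nr (x k - X i0) < 3 / 2 * d
  · obtain ⟨i0, h0⟩ := h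
    rw [Finset.sum_eq_single i0]
    · unfold ci
      split_ifs <;> norm_num
    · intro j _ hj
      have h1 := ci_dis X d hd hS x j i0 hj k
      have h2 : ci X (3 / 2 * d) x i0 k = 1 := by
        unfold ci
        rw [if_pos h0]
      rw [h2, mul_one] at h1
      rw [h1, zero_mul]
    · intro h; exact absurd (Finset.mem_univ _) h
  · push Not at h
    rw [Finset.sum_eq_zero]
    · norm_num
    · intro i _
      unfold ci
      rw [if_neg (not_lt.2 (h i)), zero_mul]

theorem ci_N_nn {n M : ℕ} (X : Fin M → R3) (d : ℝ) (x : Cf n)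
    (k l : Fin n) : 0 ≤ ∑ i, ci X (3 / 2 * d) x i k * ci X (3 / 2 * d) x i l :=
  Finset.sum_nonneg fun _ _ => mul_nonneg (ci_nn _ _ _ _ _) (ci_nn _ _ _ _ _)

/-- the gradient is carried by the neighbourhoods of the nuclei -/
theorem ci_grad {n M : ℕ} (X : Fin M → R3) (d : ℝ) (hd : 0 < d) (hS : Sep X d) (g : R3 → ℝ)
    (hg : ∀ i y, (∀ j, d ≤ nr (y - X j)) → pd i g y = 0) (x : Cf n) (k : Fin n) (m : Fin 3) :
    ∑ i, ci X (3 / 2 * d) x i k * pd m g (x k) = pd m g (x k) := by
  by_cases h : ∀ j, d ≤ nr (x k - X j)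
  · rw [hg m _ h]
    simp
  · push Not at h
    obtain ⟨i0, h0⟩ := h
    have h2 : ci X (3 / 2 * d) x i0 k = 1 := by
      unfold ci
      rw [if_pos (by linarith)]
    rw [Finset.sum_eq_single i0, h2, one_mul]
    · intro j _ hj
      have h1 := ci_dis X d hd hS x j i0 hj k
      rw [h2, mul_one] at h1
      rw [h1, zero_mul]
    · intro h; exact absurd (Finset.mem_univ _) h

/-- the product with the indicator of the pairs not near the same nucleus -/
theorem ci_grad2 {n M : ℕ} (X : Fin M → R3) (d : ℝ) (hd : 0 < d) (hS : Sep X d) (g : R3 → ℝ)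
    (hg : ∀ i y, (∀ j, d ≤ nr (y - X j)) → pd i g y = 0) (x : Cf n) (k l : Fin n) (m : Fin 3) :
    (1 - ∑ i, ci X (3 / 2 * d) x i k * ci X (3 / 2 * d) x i l) * pd m g (x k) =
      ∑ i, ci X (3 / 2 * d) x i k * (1 - ci X (3 / 2 * d) x i l) * pd m g (x k) := by
  have h1 := ci_grad X d hd hS g hg x k m
  rw [sub_mul, one_mul]
  nth_rewrite 1 [← h1]
  rw [Finset.sum_mul, ← Finset.sum_sub_distrib]
  refine Finset.sum_congr rfl fun i _ => ?_
  ring

theorem sum_lt_symm {n : ℕ} (F : Fin n → Fin n → ℝ) (h0 : ∀ k, F k k = 0) :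
    ∑ k, ∑ l, F k l = ∑ k, ∑ l, if k < l then F k l + F l k else 0 := by
  have h1 : ∑ k, ∑ l, F k l = (∑ k, ∑ l, if k < l then F k l else 0) +
      ∑ k, ∑ l, if l < k then F k l else 0 := by
    rw [← Finset.sum_add_distrib]
    refine Finset.sum_congr rfl fun k _ => ?_
    rw [← Finset.sum_add_distrib]
    refine Finset.sum_congr rfl fun l _ => ?_
    rcases lt_trichotomy k l with h | h | h
    · rw [if_pos h, if_neg (not_lt.2 h.le), add_zero]
    · rw [h, if_neg (lt_irrefl l), h0, add_zero]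
    · rw [if_neg (not_lt.2 h.le), if_pos h, zero_add]
  have h2 : (∑ k, ∑ l, if l < k then F k l else 0) = ∑ k, ∑ l, if k < l then F l k else 0 := by
    rw [Finset.sum_comm]
  rw [h1, h2, ← Finset.sum_add_distrib]
  refine Finset.sum_congr rfl fun k _ => ?_
  rw [← Finset.sum_add_distrib]
  refine Finset.sum_congr rfl fun l _ => ?_
  split_ifs
  · rfl
  · rw [add_zero]

/-- the splitting of the virial -/
theorem vir_split {n M : ℕ} (X : Fin M → R3) (Z : Fin M → ℝ) (d : ℝ) (hd : 0 < d) (hS : Sep X d)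
    (g : R3 → ℝ) (hg : ∀ i y, (∀ j, d ≤ nr (y - X j)) → pd i g y = 0) (x : Cf n) :
    Vir X Z g x =
      1 / 2 * (∑ k, ∑ l, if k < l then (∑ i, ci X (3 / 2 * d) x i k * ci X (3 / 2 * d) x i l) *
        ((∑ m, (pd m g (x k) - pd m g (x l)) * (x k m - x l m)) / nr (x k - x l) ^ 3) else 0) +
      1 / 2 * (∑ k, ∑ i, ci X (3 / 2 * d) x i k * ∑ m, pd m g (x k) * farE d X Z x i m (x k)) -
      1 / 2 * (∑ k, ∑ i, ci X (3 / 2 * d) x i k * (Z i * ∑ m, pd m g (x k) *
        ((x k m - X i m) / nr (x k - X i) ^ 3))) := by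
  set c : Fin M → Fin n → ℝ := fun i k => ci X (3 / 2 * d) x i k with hc
  set D : Fin n → Fin n → Fin 3 → ℝ := fun k l m => (x k m - x l m) / nr (x k - x l) ^ 3 with hD
  set F : Fin n → Fin M → Fin 3 → ℝ := fun k j m => (x k m - X j m) / nr (x k - X j) ^ 3 with hF
  -- the repulsion of the pairs not near the same nucleus
  have e1 : (∑ k, ∑ l, if k < l then (1 - ∑ i, c i k * c i l) *
        ((∑ m, (pd m g (x k) - pd m g (x l)) * (x k m - x l m)) / nr (x k - x l) ^ 3) else 0) =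
      ∑ k, ∑ l, (1 - ∑ i, c i k * c i l) * ∑ m, pd m g (x k) * D k l m := by
    rw [sum_lt_symm (fun k l => (1 - ∑ i, c i k * c i l) * ∑ m, pd m g (x k) * D k l m)]
    · refine Finset.sum_congr rfl fun k _ => Finset.sum_congr rfl fun l _ => ?_
      split_ifs
      · have hs : ∑ i, c i l * c i k = ∑ i, c i k * c i l :=
          Finset.sum_congr rfl fun i _ => mul_comm _ _
        rw [hs, ← mul_add, ← Finset.sum_add_distrib, Finset.sum_div]
        congr 1
        refine Finset.sum_congr rfl fun m _ => ?_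
        simp only [hD]
        rw [vir_neg (x l) (x k)]
        ring
      · rfl
    · intro k
      simp [hD]
  have e2 : ∀ k l, (1 - ∑ i, c i k * c i l) * ∑ m, pd m g (x k) * D k l m =
      ∑ i, c i k * ∑ m, pd m g (x k) * ((1 - c i l) * D k l m) := by
    intro k l
    rw [Finset.mul_sum]
    have : ∀ m, (1 - ∑ i, c i k * c i l) * (pd m g (x k) * D k l m) =
        ∑ i, c i k * (1 - c i l) * pd m g (x k) * D k l m := by
      intro m
      rw [← mul_assoc, ci_grad2 X d hd hS g hg x k l m, Finset.sum_mul]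
    simp_rw [this]
    rw [Finset.sum_comm]
    refine Finset.sum_congr rfl fun i _ => ?_
    rw [Finset.mul_sum]
    refine Finset.sum_congr rfl fun m _ => ?_
    ring
  have e3 : ∀ k, ∑ l, (1 - ∑ i, c i k * c i l) * ∑ m, pd m g (x k) * D k l m =
      ∑ i, c i k * ∑ m, pd m g (x k) * ∑ l, (1 - c i l) * D k l m := by
    intro k
    simp_rw [e2]
    rw [Finset.sum_comm]
    refine Finset.sum_congr rfl fun i _ => ?_
    rw [← Finset.mul_sum]
    congr 1
    rw [Finset.sum_comm]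
    refine Finset.sum_congr rfl fun m _ => ?_
    rw [← Finset.mul_sum]
  -- the attraction
  have e4 : ∀ k, ∑ j, Z j * ((∑ m, pd m g (x k) * (x k m - X j m)) / nr (x k - X j) ^ 3) =
      ∑ i, c i k * ∑ m, pd m g (x k) * ∑ j, Z j * F k j m := by
    intro k
    have h1 : ∑ j, Z j * ((∑ m, pd m g (x k) * (x k m - X j m)) / nr (x k - X j) ^ 3) =
        ∑ m, pd m g (x k) * ∑ j, Z j * F k j m := by
      simp_rw [Finset.sum_div, Finset.mul_sum]
      rw [Finset.sum_comm]
      refine Finset.sum_congr rfl fun m _ => Finset.sum_congr rfl fun j _ => ?_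
      simp only [hF]
      ring
    rw [h1]
    have h2 : ∀ m, pd m g (x k) * ∑ j, Z j * F k j m =
        ∑ i, c i k * (pd m g (x k) * ∑ j, Z j * F k j m) := by
      intro m
      have h3 := ci_grad X d hd hS g hg x k m
      nth_rewrite 1 [← h3]
      rw [Finset.sum_mul]
      refine Finset.sum_congr rfl fun i _ => ?_
      ring
    calc ∑ m, pd m g (x k) * ∑ j, Z j * F k j m
        = ∑ m, ∑ i, c i k * (pd m g (x k) * ∑ j, Z j * F k j m) :=
          Finset.sum_congr rfl fun m _ => h2 m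
      _ = _ := by
        rw [Finset.sum_comm]
        refine Finset.sum_congr rfl fun i _ => ?_
        rw [Finset.mul_sum]
  have e5 : ∀ (k : Fin n) (i : Fin M) (m : Fin 3), farE d X Z x i m (x k) =
      (∑ l, (1 - c i l) * D k l m) - ((∑ j, Z j * F k j m) - Z i * F k i m) := by
    intro k i m
    unfold farE
    congr 1
    · refine Finset.sum_congr rfl fun l _ => ?_
      simp only [hc, hD]
      unfold ci
      split_ifs
      · ring
      · ring
    · rw [← Finset.sum_erase_add Finset.univ _ (Finset.mem_univ i),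
        ← Finset.sum_erase_add Finset.univ (fun j => Z j * F k j m) (Finset.mem_univ i)]
      rw [if_pos rfl, add_zero, add_sub_cancel_right]
      refine Finset.sum_congr rfl fun j hj => ?_
      rw [if_neg (Finset.ne_of_mem_erase hj)]
  have e6 : (∑ k, ∑ l, if k < l then (∑ m, (pd m g (x k) - pd m g (x l)) * (x k m - x l m)) /
      nr (x k - x l) ^ 3 else 0) =
      (∑ k, ∑ l, if k < l then (∑ i, c i k * c i l) *
        ((∑ m, (pd m g (x k) - pd m g (x l)) * (x k m - x l m)) / nr (x k - x l) ^ 3) else 0) +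
      (∑ k, ∑ l, if k < l then (1 - ∑ i, c i k * c i l) *
        ((∑ m, (pd m g (x k) - pd m g (x l)) * (x k m - x l m)) / nr (x k - x l) ^ 3) else 0) := by
    rw [← Finset.sum_add_distrib]
    refine Finset.sum_congr rfl fun k _ => ?_
    rw [← Finset.sum_add_distrib]
    refine Finset.sum_congr rfl fun l _ => ?_
    split_ifs
    · ring
    · rw [add_zero]
  have e7 : (∑ k, ∑ i, c i k * ∑ m, pd m g (x k) * farE d X Z x i m (x k)) =
      (∑ k, ∑ l, (1 - ∑ i, c i k * c i l) * ∑ m, pd m g (x k) * D k l m) -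
      (∑ k, ∑ j, Z j * ((∑ m, pd m g (x k) * (x k m - X j m)) / nr (x k - X j) ^ 3)) +
      ∑ k, ∑ i, c i k * (Z i * ∑ m, pd m g (x k) * F k i m) := by
    rw [← Finset.sum_sub_distrib, ← Finset.sum_add_distrib]
    refine Finset.sum_congr rfl fun k _ => ?_
    rw [e3, e4, ← Finset.sum_sub_distrib, ← Finset.sum_add_distrib]
    refine Finset.sum_congr rfl fun i _ => ?_
    rw [← mul_sub, ← mul_add]
    congr 1
    rw [Finset.mul_sum, ← Finset.sum_sub_distrib, ← Finset.sum_add_distrib]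
    refine Finset.sum_congr rfl fun m _ => ?_
    rw [e5]
    ring
  unfold Vir
  rw [e6, e1, e7]
  ring

theorem vir_near {M : ℕ} (X : Fin M → R3) (d : ℝ) (hd : 0 < d) (hS : Sep X d) (y : R3) :
    near1 X d y ≤ 1 + near2 X d y := by
  unfold near1 near2
  by_cases h : ∃ j, nr (y - X j) < d
  · obtain ⟨j0, hj0⟩ := h
    have hz : ∀ j, j ≠ j0 → ¬ nr (y - X j) < d := by
      intro j hj hlt
      have h1 := hS j j0 hj
      have h2 := vir_tri (X j) (X j0) y
      linarith
    rw [Finset.sum_eq_single j0, Finset.sum_eq_single j0, if_pos hj0, if_pos hj0]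
    · have e : 1 / nr (y - X j0) ^ 2 = (1 / nr (y - X j0)) ^ 2 := by rw [div_pow, one_pow]
      rw [e]
      nlinarith [sq_nonneg (1 / nr (y - X j0) - 1)]
    · intro j _ hj
      rw [if_neg (hz j hj)]
    · intro h; exact absurd (Finset.mem_univ _) h
    · intro j _ hj
      rw [if_neg (hz j hj)]
    · intro h; exact absurd (Finset.mem_univ _) h
  · push Not at h
    rw [Finset.sum_eq_zero, Finset.sum_eq_zero]
    · norm_num
    · intro j _
      rw [if_neg (not_lt.2 (h j))]
    · intro j _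
      rw [if_neg (not_lt.2 (h j))]

theorem vir_near_nn {M : ℕ} (X : Fin M → R3) (d : ℝ) (y : R3) : 0 ≤ near2 X d y := by
  unfold near2
  refine Finset.sum_nonneg fun j _ => ?_
  split_ifs
  · positivity
  · exact le_rfl

theorem dn_nn {n M : ℕ} (b : ℝ) (X : Fin M → R3) (Z : Fin M → ℝ) (x : Cf n) :
    0 ≤ Dn b X Z x := by
  have hcb : 0 ≤ cb := by
    unfold cb
    apply intervalIntegral.integral_nonneg (by norm_num)
    intro u _
    positivity
  have hkap : 0 ≤ kap := by
    unfold kap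
    apply integral_nonneg
    intro y
    show 0 ≤ et 1 y
    unfold et
    have := vir_nn y
    positivity
  unfold Dn
  apply mul_nonneg
  · positivity
  · apply integral_nonneg
    intro w
    exact Finset.sum_nonneg fun i _ => sq_nonneg _

theorem vir_T1 (h4 : ST_KK) {n M : ℕ} (X : Fin M → R3) (d A : ℝ) (hd : 0 < d) (hA : 1 ≤ A)
    (hS : Sep X d) (g : R3 → ℝ) (hgs : ContDiff ℝ (⊤ : ℕ∞) g)
    (hg2 : ∀ (y : R3) (ξ : Fin 3 → ℝ),
      -(A * ∑ i, ξ i ^ 2) ≤ ∑ i, ∑ l, pd i (pd l g) y * ξ i * ξ l)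
    (x : Cf n) (hx : ∀ k l, k ≠ l → nr (x k - x l) ≠ 0) :
    -(A * (Rem (d / 8) x + 16 / d * ∑ i, cnt X (3 / 2 * d) x i ^ 2)) ≤
      ∑ k, ∑ l, if k < l then (∑ i, ci X (3 / 2 * d) x i k * ci X (3 / 2 * d) x i l) *
        ((∑ m, (pd m g (x k) - pd m g (x l)) * (x k m - x l m)) / nr (x k - x l) ^ 3) else 0 := by
  have hN : ∑ k, ∑ l, ∑ i, ci X (3 / 2 * d) x i k * ci X (3 / 2 * d) x i l =
      ∑ i, cnt X (3 / 2 * d) x i ^ 2 := by
    have h1 : ∀ i, cnt X (3 / 2 * d) x i ^ 2 =
        ∑ k, ∑ l, ci X (3 / 2 * d) x i k * ci X (3 / 2 * d) x i l := by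
      intro i
      rw [pow_two, ← Finset.sum_mul_sum]
      rfl
    simp_rw [h1]
    rw [Finset.sum_comm]
    rw [Finset.sum_comm]
    have h2 : ∀ k, ∑ l, ∑ i, ci X (3 / 2 * d) x i k * ci X (3 / 2 * d) x i l =
        ∑ i, ∑ l, ci X (3 / 2 * d) x i k * ci X (3 / 2 * d) x i l := fun k => Finset.sum_comm
    rw [Finset.sum_congr rfl fun k _ => h2 k, Finset.sum_comm]
  rw [← hN]
  unfold Rem
  rw [Finset.mul_sum, ← Finset.sum_add_distrib, Finset.mul_sum, ← Finset.sum_neg_distrib]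
  refine Finset.sum_le_sum fun k _ => ?_
  rw [Finset.mul_sum, ← Finset.sum_add_distrib, Finset.mul_sum, ← Finset.sum_neg_distrib]
  refine Finset.sum_le_sum fun l _ => ?_
  have hN0 := ci_N_nn X d x k l
  have hN1 := ci_le1 X d hd hS x k l
  set N := ∑ i, ci X (3 / 2 * d) x i k * ci X (3 / 2 * d) x i l with hNdef
  by_cases hkl : k < l
  · rw [if_pos hkl, if_pos hkl]
    have hr0 := hx k l hkl.ne
    have hr : 0 < nr (x k - x l) := lt_of_le_of_ne (vir_nn _) (Ne.symm hr0)
    set r := nr (x k - x l) with hrdef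
    obtain ⟨-, hK2, hK3, hK4⟩ := h4 (d / 8) (x k - x l) (by positivity)
    have hK2' := hK2 hr0
    have e16 : 2 / (d / 8) = 16 / d := by
      field_simp
      norm_num
    rw [e16] at hK4
    have hP : -(A * (1 / r)) ≤
        (∑ m, (pd m g (x k) - pd m g (x l)) * (x k m - x l m)) / r ^ 3 := by
      rw [le_div_iff₀ (by positivity)]
      have h5 := repl_mono hgs hg2 (x k) (x l)
      have h6 : ∑ i, (x k i - x l i) ^ 2 = r ^ 2 := by
        rw [hrdef, vir_sq]
        rfl
      rw [h6] at h5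
      calc -(A * (1 / r)) * r ^ 3 = -(A * r ^ 2) := by
            field_simp
        _ ≤ _ := h5
    have h7 : N * -(A * (1 / r)) ≤
        N * ((∑ m, (pd m g (x k) - pd m g (x l)) * (x k m - x l m)) / r ^ 3) :=
      mul_le_mul_of_nonneg_left hP hN0
    refine le_trans ?_ h7
    have h8 : N * (1 / r) ≤ 1 / r - Kf (d / 8) (x k - x l) + 16 / d * N := by
      have h9 : N * (1 / r - Kf (d / 8) (x k - x l)) ≤
          1 * (1 / r - Kf (d / 8) (x k - x l)) :=
        mul_le_mul_of_nonneg_right hN1 (by linarith)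
      have h10 : N * Kf (d / 8) (x k - x l) ≤ N * (16 / d) :=
        mul_le_mul_of_nonneg_left hK4 hN0
      nlinarith
    nlinarith
  · rw [if_neg hkl, if_neg hkl]
    have : 0 ≤ A * (0 + 16 / d * N) := by positivity
    linarith

theorem vir_T2 {n M : ℕ} (X : Fin M → R3) (Z : Fin M → ℝ) (d A : ℝ) (hd : 0 < d) (hA : 1 ≤ A)
    (hS : Sep X d) (g : R3 → ℝ) (hg : ∀ i y, (∀ j, d ≤ nr (y - X j)) → pd i g y = 0)
    (hg1 : ∀ i y, |pd i g y| ≤ A) (x : Cf n) (e : Fin M → ℝ)
    (he : ∀ i m y, nr (y - X i) ≤ d → |farE d X Z x i m y| ≤ e i) :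
    -(3 / 2 * A * (∑ i, cnt X (3 / 2 * d) x i ^ 2 + ∑ i, e i ^ 2)) ≤
      ∑ k, ∑ i, ci X (3 / 2 * d) x i k * ∑ m, pd m g (x k) * farE d X Z x i m (x k) := by
  have h1 : ∀ k i, -(3 * A * (ci X (3 / 2 * d) x i k * e i)) ≤
      ci X (3 / 2 * d) x i k * ∑ m, pd m g (x k) * farE d X Z x i m (x k) := by
    intro k i
    by_cases hc : nr (x k - X i) < 3 / 2 * d
    · have hc1 : ci X (3 / 2 * d) x i k = 1 := by
        unfold ci
        rw [if_pos hc]
      rw [hc1, one_mul, one_mul]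
      have he0 : 0 ≤ e i := by
        have h0 : nr (X i - X i) ≤ d := by
          rw [sub_self]
          have : nr (0 : R3) = 0 := by
            unfold nr
            simp
          rw [this]
          exact hd.le
        exact (abs_nonneg _).trans (he i 0 (X i) h0)
      by_cases hn : nr (x k - X i) < d
      · have h2 : ∀ m, -(A * e i) ≤ pd m g (x k) * farE d X Z x i m (x k) := by
          intro m
          have h3 : |pd m g (x k) * farE d X Z x i m (x k)| ≤ A * e i := by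
            rw [abs_mul]
            exact mul_le_mul (hg1 m _) (he i m _ hn.le) (abs_nonneg _) (by linarith)
          exact (abs_le.1 h3).1
        calc -(3 * A * e i) = ∑ _m : Fin 3, -(A * e i) := by
              rw [Fin.sum_univ_three]; ring
          _ ≤ _ := Finset.sum_le_sum fun m _ => h2 m
      · have h4 : ∀ m, pd m g (x k) = 0 := by
          intro m
          apply hg
          intro j
          by_cases hj : j = i
          · rw [hj]; exact not_lt.1 hn
          · have h5 := hS i j (Ne.symm hj)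
            have h6 := vir_tri (X i) (X j) (x k)
            linarith
        simp only [h4, zero_mul, Finset.sum_const_zero]
        have : 0 ≤ 3 * A * e i := by positivity
        linarith
    · have hc0 : ci X (3 / 2 * d) x i k = 0 := by
        unfold ci
        rw [if_neg hc]
      rw [hc0, zero_mul, zero_mul, mul_zero, neg_zero]
  have h2 : ∑ k, ∑ i, -(3 * A * (ci X (3 / 2 * d) x i k * e i)) =
      -(3 * A * ∑ i, cnt X (3 / 2 * d) x i * e i) := by
    rw [Finset.sum_comm, Finset.mul_sum, ← Finset.sum_neg_distrib]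
    refine Finset.sum_congr rfl fun i _ => ?_
    have : cnt X (3 / 2 * d) x i = ∑ k, ci X (3 / 2 * d) x i k := rfl
    rw [this, Finset.sum_mul, Finset.mul_sum, ← Finset.sum_neg_distrib]
  have h3 : ∑ i, cnt X (3 / 2 * d) x i * e i ≤
      1 / 2 * (∑ i, cnt X (3 / 2 * d) x i ^ 2 + ∑ i, e i ^ 2) := by
    rw [← Finset.sum_add_distrib, Finset.mul_sum]
    refine Finset.sum_le_sum fun i _ => ?_
    nlinarith [sq_nonneg (cnt X (3 / 2 * d) x i - e i)]
  calc -(3 / 2 * A * (∑ i, cnt X (3 / 2 * d) x i ^ 2 + ∑ i, e i ^ 2))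
      ≤ -(3 * A * ∑ i, cnt X (3 / 2 * d) x i * e i) := by nlinarith
    _ = ∑ k, ∑ i, -(3 * A * (ci X (3 / 2 * d) x i k * e i)) := h2.symm
    _ ≤ _ := Finset.sum_le_sum fun k _ => Finset.sum_le_sum fun i _ => h1 k i

theorem vir_T3 {n M : ℕ} (X : Fin M → R3) (Z : Fin M → ℝ) (z d A : ℝ) (hz : 0 ≤ z) (hd : 0 < d)
    (hA : 1 ≤ A) (hS : Sep X d) (hZ0 : ∀ j, 0 ≤ Z j) (hZz : ∀ j, Z j ≤ z) (g : R3 → ℝ)
    (hg : ∀ i y, (∀ j, d ≤ nr (y - X j)) → pd i g y = 0)
    (hg1 : ∀ i y, |pd i g y| ≤ A) (x : Cf n) (hx : ∀ k j, nr (x k - X j) ≠ 0) :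
    ∑ k, ∑ i, ci X (3 / 2 * d) x i k * (Z i * ∑ m, pd m g (x k) *
        ((x k m - X i m) / nr (x k - X i) ^ 3)) ≤ 3 * A * z * ∑ k, near2 X d (x k) := by
  rw [Finset.mul_sum]
  refine Finset.sum_le_sum fun k _ => ?_
  unfold near2
  rw [Finset.mul_sum]
  refine Finset.sum_le_sum fun i _ => ?_
  by_cases hn : nr (x k - X i) < d
  · rw [if_pos hn]
    have hc1 : ci X (3 / 2 * d) x i k = 1 := by
      unfold ci
      rw [if_pos (by linarith)]
    rw [hc1, one_mul]
    have hr : 0 < nr (x k - X i) := lt_of_le_of_ne (vir_nn _) (Ne.symm (hx k i))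
    set r := nr (x k - X i) with hrdef
    have h1 : ∀ m, pd m g (x k) * ((x k m - X i m) / r ^ 3) ≤ A * (1 / r ^ 2) := by
      intro m
      have h2 : |(x k m - X i m) / r ^ 3| ≤ 1 / r ^ 2 := by
        rw [abs_div, abs_of_pos (show 0 < r ^ 3 by positivity), div_le_div_iff₀ (by positivity)
          (by positivity)]
        have h3 : |x k m - X i m| ≤ r := vir_abs (x k - X i) m
        calc |x k m - X i m| * r ^ 2 ≤ r * r ^ 2 := mul_le_mul_of_nonneg_right h3 (by positivity)
          _ = 1 * r ^ 3 := by ring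
      calc pd m g (x k) * ((x k m - X i m) / r ^ 3)
          ≤ |pd m g (x k) * ((x k m - X i m) / r ^ 3)| := le_abs_self _
        _ = |pd m g (x k)| * |(x k m - X i m) / r ^ 3| := abs_mul _ _
        _ ≤ A * (1 / r ^ 2) := mul_le_mul (hg1 m _) h2 (abs_nonneg _) (by linarith)
    have h4 : ∑ m, pd m g (x k) * ((x k m - X i m) / r ^ 3) ≤ 3 * A * (1 / r ^ 2) := by
      calc ∑ m, pd m g (x k) * ((x k m - X i m) / r ^ 3) ≤ ∑ _m : Fin 3, A * (1 / r ^ 2) :=
            Finset.sum_le_sum fun m _ => h1 m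
        _ = 3 * A * (1 / r ^ 2) := by
            rw [Fin.sum_univ_three]; ring
    calc Z i * ∑ m, pd m g (x k) * ((x k m - X i m) / r ^ 3)
        ≤ Z i * (3 * A * (1 / r ^ 2)) := mul_le_mul_of_nonneg_left h4 (hZ0 i)
      _ ≤ z * (3 * A * (1 / r ^ 2)) := mul_le_mul_of_nonneg_right (hZz i) (by positivity)
      _ = 3 * A * z * (1 / r ^ 2) := by ring
  · rw [if_neg hn, mul_zero]
    by_cases hc : nr (x k - X i) < 3 / 2 * d
    · have h4 : ∀ m, pd m g (x k) = 0 := by
        intro m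
        apply hg
        intro j
        by_cases hj : j = i
        · rw [hj]; exact not_lt.1 hn
        · have h5 := hS i j (Ne.symm hj)
          have h6 := vir_tri (X i) (X j) (x k)
          linarith
      simp only [h4, zero_mul, Finset.sum_const_zero, mul_zero]
      exact le_rfl
    · have hc0 : ci X (3 / 2 * d) x i k = 0 := by
        unfold ci
        rw [if_neg hc]
      rw [hc0, zero_mul]

theorem VIR (h1 : ST_ES1) (h2 : ST_NB) (h3 : ST_FF) (h4 : ST_KK) : ST_VIR := by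
  intro z d A hz hd hA
  obtain ⟨C1, hC1, hES⟩ := h1 z d hz hd
  obtain ⟨C2, hC2, hNB⟩ := h2 z d hz hd
  obtain ⟨C3, hC3, hFF⟩ := h3 z d hz hd
  have hA0 : 0 ≤ A := by linarith
  set K : ℝ := A * (16 / d) * C2 + 3 / 2 * A * (C2 + C3) with hK
  have hK0 : 0 ≤ K := by positivity
  refine ⟨A + 2 * K + (C1 + z) + 1 + 3 * A * z, by positivity, ?_⟩
  intro n M X Z g x hS hN hn hZ1 hZz hgs hg0 hg1 hg2 hD
  set C : ℝ := A + 2 * K + (C1 + z) + 1 + 3 * A * z with hC
  have hZ0 := hN.1
  have hMn : (M : ℝ) ≤ n := by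
    have h5 : ∑ _j : Fin M, (1 : ℝ) ≤ ∑ j, Z j := Finset.sum_le_sum fun j _ => hZ1 j
    rw [hN.2] at h5
    simpa using h5
  obtain ⟨e, he, hesum⟩ := hFF n M X Z x hS hZ0 hZz
  have hcnt := hNB n M X Z x hS hZ0 hZz
  have hES' := hES n M X Z x hS hN hZz hD
  have hDn := dn_nn (d / 8) X Z x
  have hRem : 0 ≤ Rem (d / 8) x := by
    unfold Rem
    refine Finset.sum_nonneg fun k _ => Finset.sum_nonneg fun l _ => ?_
    split_ifs with hkl
    · obtain ⟨-, hK2, -, -⟩ := h4 (d / 8) (x k - x l) (by positivity)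
      have := hK2 (hD.1 k l hkl.ne)
      linarith
    · exact le_rfl
  have hnear : ∑ k, near1 X d (x k) ≤ n + ∑ k, near2 X d (x k) := by
    have h5 : ∑ k, near1 X d (x k) ≤ ∑ k, (1 + near2 X d (x k)) :=
      Finset.sum_le_sum fun k _ => vir_near X d hd hS (x k)
    rw [Finset.sum_add_distrib] at h5
    simpa using h5
  have hS0 : 0 ≤ ∑ k, near2 X d (x k) := Finset.sum_nonneg fun k _ => vir_near_nn X d (x k)
  have hT1 := vir_T1 h4 X d A hd hA hS g hgs hg2 x hD.1
  have hT2 := vir_T2 X Z d A hd hA hS g hg0 hg1 x e he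
  have hT3 := vir_T3 X Z z d A hz hd hA hS hZ0 hZz g hg0 hg1 x hD.2
  rw [vir_split X Z d hd hS g hg0 x]
  set T1 := ∑ k, ∑ l, if k < l then (∑ i, ci X (3 / 2 * d) x i k * ci X (3 / 2 * d) x i l) *
        ((∑ m, (pd m g (x k) - pd m g (x l)) * (x k m - x l m)) / nr (x k - x l) ^ 3) else 0
  set T2 := ∑ k, ∑ i, ci X (3 / 2 * d) x i k * ∑ m, pd m g (x k) * farE d X Z x i m (x k)
  set T3 := ∑ k, ∑ i, ci X (3 / 2 * d) x i k * (Z i * ∑ m, pd m g (x k) *
        ((x k m - X i m) / nr (x k - X i) ^ 3))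
  set S2 := ∑ k, near2 X d (x k)
  set R := Rem (d / 8) x
  set V := Vc X Z x
  set Q := ∑ i, cnt X (3 / 2 * d) x i ^ 2
  set E := ∑ i, e i ^ 2
  set D := Dn (d / 8) X Z x
  set S1 := ∑ k, near1 X d (x k)
  have hn0 : (0 : ℝ) ≤ n := Nat.cast_nonneg n
  -- the energy
  have hW : 1 / 2 * D + R ≤ V + (C1 + z) * (n + S2) := by
    have h5 : z * S1 ≤ z * (n + S2) := mul_le_mul_of_nonneg_left hnear hz
    have h6 : 0 ≤ C1 * S2 := by positivity
    nlinarith
  set W := V + (C1 + z) * (n + S2) with hWdef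
  have hW0 : 0 ≤ W := by linarith
  have hQ : Q ≤ C2 * (n + 2 * W) := by
    refine hcnt.trans (mul_le_mul_of_nonneg_left ?_ hC2.le)
    linarith
  have hE : E ≤ C3 * (n + 2 * W) := by
    refine hesum.trans (mul_le_mul_of_nonneg_left ?_ hC3.le)
    linarith
  have hVW : V + C * (n + S2) = W + (C - (C1 + z)) * (n + S2) := by
    rw [hWdef]
    ring
  have hCK : 0 ≤ C - (C1 + z) := by
    rw [hC]
    have : 0 ≤ 3 * A * z := by positivity
    linarith
  have hnS : 0 ≤ n + S2 := by linarith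
  refine ⟨?_, ?_⟩
  · rw [hVW]
    have := mul_nonneg hCK hnS
    linarith
  · rw [hVW]
    have h5 : A * (R + 16 / d * Q) + 3 / 2 * A * (Q + E) ≤ A * W + K * (n + 2 * W) := by
      have h6 : A * R ≤ A * W := mul_le_mul_of_nonneg_left (by linarith) hA0
      have h7 : A * (16 / d) * Q ≤ A * (16 / d) * (C2 * (n + 2 * W)) :=
        mul_le_mul_of_nonneg_left hQ (by positivity)
      have h8 : 3 / 2 * A * (Q + E) ≤ 3 / 2 * A * (C2 * (n + 2 * W) + C3 * (n + 2 * W)) :=
        mul_le_mul_of_nonneg_left (by linarith) (by positivity)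
      rw [hK]
      nlinarith
    have h9 : -(1 / 2 * (A * W + K * (n + 2 * W) + 3 * A * z * S2)) ≤
        1 / 2 * T1 + 1 / 2 * T2 - 1 / 2 * T3 := by linarith
    refine le_trans (neg_le_neg ?_) h9
    -- C * (W + (C - K0) (n + S2)) ≥ ...
    have hCge : 1 ≤ C := by
      rw [hC]
      have : 0 ≤ 3 * A * z := by positivity
      linarith
    have hCA : A + 2 * K ≤ C := by
      rw [hC]
      have : 0 ≤ 3 * A * z := by positivity
      linarith
    have hCB : K + 3 * A * z ≤ C - (C1 + z) := by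
      rw [hC]
      linarith
    have h10 : (A + 2 * K) * W ≤ C * W := mul_le_mul_of_nonneg_right hCA hW0
    have h11 : (K + 3 * A * z) * (n + S2) ≤ (C - (C1 + z)) * (n + S2) :=
      mul_le_mul_of_nonneg_right hCB hnS
    have h12 : 0 ≤ (C - (C1 + z)) * (n + S2) := mul_nonneg hCK hnS
    have h13 : (C - (C1 + z)) * (n + S2) ≤ C * ((C - (C1 + z)) * (n + S2)) :=
      le_mul_of_one_le_left h12 hCge
    have h14 : 0 ≤ K * S2 := by positivity
    have h15 : 0 ≤ 3 * A * z * n := by positivity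
    have h16 : 0 ≤ A * W := by positivity
    have h17 : 0 ≤ K * W := by positivity
    have h18 : 0 ≤ K * n := by positivity
    have h19 : 0 ≤ 3 * A * z * S2 := by positivity
    nlinarith

end Pool.Agent.Helper82.LN
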